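import Pool.Agent.QSB.StmtsR

/-!
# QSB, row BWT
-/

set_option autoImplicit false

namespace Pool.Agent.QSB.H40

open Matrix Finset Pool.Agent.QSX Pool.Agent.QSB

/-- BWT -/
theorem bwt : BwtStmt := by
  refine ⟨?_, ?_⟩
  · intro X ρ σ x y hx hy
    refine ⟨X.lie x hx.1 y hy.1, fun c => ?_⟩
    have h1 := hx.2 c
    have h2 := hy.2 c
    set D := diagonal (c : Fin X.m → ℝ) with hD
    have e1 : D * (x * y - y * x) - (x * y - y * x) * D =
        (D * x - x * D) * y + x * (D * y - y * D) - (D * y - y * D) * x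
          - y * (D * x - x * D) := by
      noncomm_ring
    rw [e1, h1, h2]
    simp only [LinearMap.add_apply, Matrix.smul_mul, Matrix.mul_smul, add_smul, smul_sub]
    abel
  · intro X hR ρ hρ h0
    have := hR ρ 0 hρ (by simpa [h0] using hρ)
    norm_num at this

end Pool.Agent.QSB.H40
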