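import Pool.Agent.QSB.StmtsS

/-!
# QSB, row TWS: the field `two` of `RR`
-/

set_option autoImplicit false

namespace Pool.Agent.QSB.H40

open Matrix Finset Pool.Agent.QSX Pool.Agent.QSB

/-- TWS -/
theorem tws (gwb : GwbStmt) (int : IntStmt) (cry : CryStmt) : TwsStmt := by
  intro Y hS ρ γ γ' hρ h2ρ hγ hγ' hn hn' hs hs' ht
  obtain ⟨S⟩ := hS
  obtain ⟨g1, g2, g3, g4, g5⟩ := gwb Y S
  obtain ⟨x, hx⟩ := hρ
  obtain ⟨w, hw⟩ := h2ρ
  obtain ⟨gx, px⟩ := g1 ρ x hx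
  obtain ⟨gw, pw⟩ := g1 _ w hw
  have hρ0 : ρ ≠ 0 := by
    intro h
    rw [h] at px
    exact lt_irrefl _ px
  have h2ρ0 : (2 : ℝ) • ρ ≠ 0 := smul_ne_zero two_ne_zero hρ0
  have hRp : 0 < ip Y ρ ρ := ip_self_pos hρ0
  -- crystallographic facts
  have key : ∀ σ s, RtV Y σ s → (∀ c : ℝ, σ ≠ c • ρ) → ip Y σ ρ ≤ ip Y ρ ρ := by
    intro σ s hsσ hnp
    obtain ⟨gs, ps⟩ := g1 σ s hsσ
    obtain ⟨⟨n, hn⟩, -, -⟩ := int Y S ((2 : ℝ) • ρ) σ w s gw h2ρ0 gs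
    rw [ip_smul_right, ip_smul_left, ip_smul_right] at hn
    have h1 : ip Y σ ρ = n * ip Y ρ ρ := by linear_combination hn / 4
    obtain ⟨n', k, e1, e2, h3⟩ := cry Y S ρ σ x s gx gs hρ0 hnp
    have h4 : (2 * n : ℝ) = n' := by
      have h5 : (2 * (n : ℝ)) * ip Y ρ ρ = n' * ip Y ρ ρ := by
        rw [← e1, h1]
        ring
      exact mul_right_cancel₀ hRp.ne' h5
    have h5 : 2 * n = n' := by exact_mod_cast h4
    have h6 : n ≤ 1 := by
      rcases h3 with ⟨a, b⟩ | ⟨a, b, c⟩ | ⟨a, b, c⟩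
      · omega
      · have h7 : n' ≤ n' * k := le_mul_of_one_le_right a.le b
        omega
      · omega
    have h7 : (n : ℝ) ≤ 1 := by exact_mod_cast h6
    rw [h1]
    nlinarith
  have keyB : ∀ σ s, RtV Y σ s → (∀ c : ℝ, σ ≠ c • ρ) → ip Y σ ρ = ip Y ρ ρ →
      ip Y σ σ = 2 * ip Y ρ ρ := by
    intro σ s hsσ hnp he
    obtain ⟨gs, ps⟩ := g1 σ s hsσ
    obtain ⟨n, k, e1, e2, h3⟩ := cry Y S ρ σ x s gx gs hρ0 hnp
    rw [he] at e1 e2
    have h4 : (2 : ℝ) = n := mul_right_cancel₀ hRp.ne' e1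
    have h5 : (2 : ℤ) = n := by exact_mod_cast h4
    have h6 : k = 1 := by
      rcases h3 with ⟨a, b⟩ | ⟨a, b, c⟩ | ⟨a, b, c⟩
      · omega
      · rw [← h5] at c
        omega
      · omega
    rw [h6, Int.cast_one, one_mul] at e2
    exact e2.symm
  -- the sum of `ρ` and a root
  have npA : ∀ δ, NPr δ ρ → ∀ c : ℝ, ρ + δ ≠ c • ρ := by
    intro δ hd c h
    apply hd.1 (c - 1)
    ext v
    have h1 := LinearMap.congr_fun h v
    simp only [LinearMap.add_apply, LinearMap.smul_apply, smul_eq_mul] at h1 ⊢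
    linarith
  have neg : ∀ δ z, RtV Y δ z → ip Y δ ρ < 0 → IsRt Y ((2 : ℝ) • ρ + δ) := by
    intro δ z hz hlt
    obtain ⟨gz, pz⟩ := g1 δ z hz
    have h1 := (int Y S ((2 : ℝ) • ρ) δ w z gw h2ρ0 gz).2.1 (by
      rw [ip_smul_right]
      linarith)
    refine ⟨w * z - z * w, g2 _ _ (g4 _ _ _ _ gw gz h1) ?_⟩
    rw [LinearMap.add_apply]
    linarith
  obtain ⟨z, hz⟩ := hγ
  obtain ⟨z', hz'⟩ := hγ'
  obtain ⟨s, hs⟩ := hs
  obtain ⟨s', hs'⟩ := hs'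
  obtain ⟨t, ht⟩ := ht
  have a1 := key _ _ hs (npA γ hn)
  have a2 := key _ _ hs' (npA γ' hn')
  rw [ip_add_left] at a1 a2
  rcases lt_or_eq_of_le (show ip Y γ ρ ≤ 0 by linarith) with h | h0
  · exact Or.inl (neg γ z hz h)
  rcases lt_or_eq_of_le (show ip Y γ' ρ ≤ 0 by linarith) with h | h0'
  · exact Or.inr (neg γ' z' hz' h)
  exfalso
  have pz := (g1 _ _ hz).2
  have pz' := (g1 _ _ hz').2
  have b1 : ip Y γ γ = ip Y ρ ρ := by
    have h1 := keyB _ _ hs (npA γ hn) (by rw [ip_add_left, h0, add_zero])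
    rw [ip_add_left, ip_add_right, ip_add_right, ip_comm ρ γ, h0] at h1
    linarith
  have b2 : ip Y γ' γ' = ip Y ρ ρ := by
    have h1 := keyB _ _ hs' (npA γ' hn') (by rw [ip_add_left, h0', add_zero])
    rw [ip_add_left, ip_add_right, ip_add_right, ip_comm ρ γ', h0'] at h1
    linarith
  have npT : ∀ c : ℝ, ρ + γ + γ' ≠ c • ρ := by
    intro c h
    have h1 : γ + γ' = (c - 1) • ρ := by
      ext v
      have h1 := LinearMap.congr_fun h v
      simp only [LinearMap.add_apply, LinearMap.smul_apply, smul_eq_mul] at h1 ⊢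
      linarith
    have h2 : ip Y (γ + γ') ρ = (c - 1) * ip Y ρ ρ := by rw [h1, ip_smul_left]
    rw [ip_add_left, h0, h0', add_zero] at h2
    have h3 : c - 1 = 0 := by
      rcases mul_eq_zero.1 h2.symm with h | h
      · exact h
      · exact absurd h hRp.ne'
    rw [h3, zero_smul] at h1
    have h4 : (γ + γ') S.a₀ = 0 := by rw [h1]; rfl
    rw [LinearMap.add_apply] at h4
    linarith
  have b3 : 2 * ip Y γ' γ = -ip Y ρ ρ := by
    have h1 := keyB _ _ ht npT (by rw [ip_add_left, ip_add_left, h0, h0']; ring)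
    simp only [ip_add_left, ip_add_right] at h1
    rw [ip_comm ρ γ, ip_comm ρ γ', ip_comm γ γ', h0, h0', b1, b2] at h1
    linarith
  -- the root `2 γ`
  have gs := (g1 _ _ hs).1
  have gsT := g3 _ _ gs
  have hσρ : ip Y (ρ + γ) ρ = ip Y ρ ρ := by rw [ip_add_left, h0, add_zero]
  have hσσ : ip Y (ρ + γ) (ρ + γ) = 2 * ip Y ρ ρ := keyB _ _ hs (npA γ hn) hσρ
  have hσ0 : -(ρ + γ) ≠ 0 := by
    intro h
    rw [neg_eq_zero] at h
    rw [h, ip_comm] at hσσ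
    have : ip Y (0 : Y.b →ₗ[ℝ] ℝ) 0 = 0 := by
      have h2 := ip_smul_left (X := Y) 0 (0 : Y.b →ₗ[ℝ] ℝ) 0
      rwa [zero_smul, zero_mul] at h2
    rw [this] at hσσ
    linarith
  have hy := (int Y S (-(ρ + γ)) ((2 : ℝ) • ρ) sᵀ w gsT hσ0 gw).2.2 (by
    rw [ip_neg_right, ip_neg_left, ip_neg_right, ip_smul_left, ip_comm ρ (ρ + γ), hσρ, hσσ]
    ring)
  have hu : sᵀ * w - w * sᵀ ≠ 0 := by
    intro h
    apply hy
    rw [h, mul_zero, zero_mul, sub_zero]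
  have gu := g4 _ _ _ _ gsT gw hu
  have gy := g4 _ _ _ _ gsT gu hy
  have gyT := g3 _ _ gy
  have e2 : -(-(ρ + γ) + (-(ρ + γ) + (2 : ℝ) • ρ)) = (2 : ℝ) • γ := by
    rw [two_smul, two_smul]
    abel
  rw [e2] at gyT
  have hγ0 : (2 : ℝ) • γ ≠ 0 := by
    refine smul_ne_zero two_ne_zero ?_
    intro h
    rw [h] at pz
    exact lt_irrefl _ pz
  obtain ⟨⟨n, hn⟩, -, -⟩ := int Y S ((2 : ℝ) • γ) γ' _ z' gyT hγ0 (g1 _ _ hz').1
  rw [ip_smul_right, ip_smul_left, ip_smul_right, b1] at hn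
  have h5 : (-1 - 2 * n : ℝ) * ip Y ρ ρ = 0 := by linear_combination hn / 2 - b3
  rcases mul_eq_zero.1 h5 with h | h
  · have h6 : (-1 - 2 * n : ℤ) = 0 := by exact_mod_cast h
    omega
  · exact absurd h hRp.ne'

end Pool.Agent.QSB.H40
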